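import Pool.Agent.Lib_helper59.HT.Defs2

/-!
# Block C4: a minimal closed family has fewer vertices than members
-/

set_option autoImplicit false

open Finset Matrix

namespace Pool.Agent.HT

theorem c4_third {n : ℕ} {C : Finset (Finset (Fin n))} (hC : Cl C) {v a b : Fin n}
    (hva : v ≠ a) (ht : ({v, a, b} : Finset (Fin n)) ∈ C) :
    ∃ c, c ≠ v ∧ c ≠ a ∧ c ≠ b ∧ ({v, a, c} : Finset (Fin n)) ∈ C := by
  obtain ⟨t', ht', hne, hsub⟩ := hC.2.2 _ ht {v, a} (by
    intro x hx
    simp only [mem_insert, mem_singleton] at hx ⊢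
    tauto) (card_pair hva)
  have h3 := hC.2.1 t' ht'
  have h1 : (t' \ {v, a}).card = 1 := by
    rw [card_sdiff_of_subset hsub, h3, card_pair hva]
  obtain ⟨c, hc⟩ := card_eq_one.1 h1
  have hc1 : c ∈ t' \ {v, a} := by
    rw [hc]
    exact mem_singleton_self c
  simp only [mem_sdiff, mem_insert, mem_singleton, not_or] at hc1
  have heq : t' = {v, a, c} := by
    ext x
    constructor
    · intro hx
      by_cases h : x ∈ ({v, a} : Finset (Fin n))
      · simp only [mem_insert, mem_singleton] at h ⊢
        tauto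
      · have : x ∈ t' \ {v, a} := mem_sdiff.2 ⟨hx, h⟩
        rw [hc, mem_singleton] at this
        simp [this]
    · intro hx
      simp only [mem_insert, mem_singleton] at hx
      rcases hx with h | h | h
      · exact hsub (by simp [h])
      · exact hsub (by simp [h])
      · rw [h]
        exact hc1.1
  refine ⟨c, hc1.2.1, hc1.2.2, ?_, heq ▸ ht'⟩
  rintro rfl
  exact hne heq

theorem c4_exists {n : ℕ} {C : Finset (Finset (Fin n))} (hC : Cl C) {v : Fin n}
    {t : Finset (Fin n)} (ht : t ∈ C) (hv : v ∈ t) :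
    ∃ a b, v ≠ a ∧ v ≠ b ∧ a ≠ b ∧ t = {v, a, b} := by
  have h3 := hC.2.1 t ht
  have h2 : (t.erase v).card = 2 := by
    rw [card_erase_of_mem hv, h3]
  obtain ⟨a, b, hab, he⟩ := card_eq_two.1 h2
  have ha : a ∈ t.erase v := by simp [he]
  have hb : b ∈ t.erase v := by simp [he]
  refine ⟨a, b, (ne_of_mem_erase ha).symm, (ne_of_mem_erase hb).symm, hab, ?_⟩
  rw [← insert_erase hv, he]

/-- the members through `v` -/
def c4_st {n : ℕ} (C : Finset (Finset (Fin n))) (v : Fin n) : Finset (Finset (Fin n)) :=
  C.filter (fun t => v ∈ t)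

theorem c4_three_le {n : ℕ} {A : Finset (Finset (Fin n))} {x y z : Finset (Fin n)}
    (hx : x ∈ A) (hy : y ∈ A) (hz : z ∈ A) (hxy : x ≠ y) (hxz : x ≠ z) (hyz : y ≠ z) :
    3 ≤ A.card := by
  have : ({x, y, z} : Finset (Finset (Fin n))) ⊆ A := by
    intro u hu
    simp only [mem_insert, mem_singleton] at hu
    rcases hu with rfl | rfl | rfl <;> assumption
  have h := card_le_card this
  rwa [card_insert_of_notMem (by simp [hxy, hxz]), card_insert_of_notMem (by simp [hyz]),
    card_singleton] at h

theorem c4_mem_three {n : ℕ} {A : Finset (Finset (Fin n))} {x y z u : Finset (Fin n)}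
    (hA : A.card = 3)
    (hx : x ∈ A) (hy : y ∈ A) (hz : z ∈ A) (hxy : x ≠ y) (hxz : x ≠ z) (hyz : y ≠ z)
    (hu : u ∈ A) : u = x ∨ u = y ∨ u = z := by
  have hsub : ({x, y, z} : Finset (Finset (Fin n))) ⊆ A := by
    intro u hu
    simp only [mem_insert, mem_singleton] at hu
    rcases hu with rfl | rfl | rfl <;> assumption
  have hc : ({x, y, z} : Finset (Finset (Fin n))).card = 3 := by
    rw [card_insert_of_notMem (by simp [hxy, hxz]), card_insert_of_notMem (by simp [hyz]),
      card_singleton]
  have he := eq_of_subset_of_card_le hsub (by rw [hc, hA])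
  rw [← he] at hu
  simpa only [mem_insert, mem_singleton] using hu

theorem c4_deg {n : ℕ} {C : Finset (Finset (Fin n))} (hC : Cl C) {v : Fin n}
    (hv : v ∈ C.biUnion id) : 3 ≤ (c4_st C v).card := by
  obtain ⟨t, ht, hvt⟩ := mem_biUnion.1 hv
  obtain ⟨a, b, hva, hvb, hab, rfl⟩ := c4_exists hC ht hvt
  obtain ⟨c, hcv, hca, hcb, hc⟩ := c4_third hC hva ht
  have ht' : ({v, b, a} : Finset (Fin n)) ∈ C := by
    rwa [show ({v, b, a} : Finset (Fin n)) = {v, a, b} by rw [pair_comm b a]]
  obtain ⟨d, hdv, hdb, hda, hd⟩ := c4_third hC hvb ht'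
  refine c4_three_le (x := {v, a, b}) (y := {v, a, c}) (z := {v, b, d}) ?_ ?_ ?_ ?_ ?_ ?_
  · exact mem_filter.2 ⟨ht, by simp⟩
  · exact mem_filter.2 ⟨hc, by simp⟩
  · exact mem_filter.2 ⟨hd, by simp⟩
  · intro h
    have : b ∈ ({v, a, c} : Finset (Fin n)) := h ▸ (by simp)
    simp only [mem_insert, mem_singleton] at this
    rcases this with h | h | h
    · exact hvb h.symm
    · exact hab h.symm
    · exact hcb h.symm
  · intro h
    have : a ∈ ({v, b, d} : Finset (Fin n)) := h ▸ (by simp)
    simp only [mem_insert, mem_singleton] at this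
    rcases this with h | h | h
    · exact hva h.symm
    · exact hab h
    · exact hda h.symm
  · intro h
    have : a ∈ ({v, b, d} : Finset (Fin n)) := h ▸ (by simp)
    simp only [mem_insert, mem_singleton] at this
    rcases this with h | h | h
    · exact hva h.symm
    · exact hab h
    · exact hda h.symm

theorem c4_sum {n : ℕ} {C : Finset (Finset (Fin n))} (hC : Cl C) :
    ∑ v ∈ C.biUnion id, (c4_st C v).card = 3 * C.card := by
  have h := Finset.sum_card_bipartiteAbove_eq_sum_card_bipartiteBelow
    (s := C.biUnion id) (t := C) (fun (v : Fin n) (t : Finset (Fin n)) => v ∈ t)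
  have h1 : ∀ t ∈ C, (bipartiteBelow (fun (v : Fin n) (t : Finset (Fin n)) => v ∈ t)
      (C.biUnion id) t).card = 3 := by
    intro t ht
    rw [← hC.2.1 t ht]
    congr 1
    ext x
    simp only [mem_bipartiteBelow, mem_biUnion, id]
    exact ⟨fun h => h.2, fun h => ⟨⟨t, ht, h⟩, h⟩⟩
  rw [sum_congr rfl h1, sum_const, smul_eq_mul] at h
  rw [mul_comm, ← h]
  rfl

theorem min_closed_vertices_pr (n : ℕ) (C : Finset (Finset (Fin n))) (hC : MinCl C)
    (h5 : 5 ≤ C.card) : (C.biUnion id).card + 1 ≤ C.card := by
  obtain ⟨hcl, hmin⟩ := hC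
  by_contra hlt
  have hle : C.card ≤ (C.biUnion id).card := by omega
  have hdeg : ∀ v ∈ C.biUnion id, (c4_st C v).card = 3 := by
    intro v hv
    have hs := c4_sum hcl
    have h3 : ∑ v ∈ C.biUnion id, 3 = 3 * (C.biUnion id).card := by
      rw [sum_const, smul_eq_mul, mul_comm]
    have hge : ∑ v ∈ C.biUnion id, 3 ≤ ∑ v ∈ C.biUnion id, (c4_st C v).card :=
      sum_le_sum fun v hv => c4_deg hcl hv
    have heq : ∑ v ∈ C.biUnion id, 3 = ∑ v ∈ C.biUnion id, (c4_st C v).card := by omega
    exact ((sum_eq_sum_iff_of_le fun v hv => c4_deg hcl hv).1 heq v hv).symm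
  obtain ⟨t, ht⟩ := hcl.1
  have hne : t.Nonempty := by
    rw [← card_pos, hcl.2.1 t ht]
    norm_num
  obtain ⟨v, hvt⟩ := hne
  obtain ⟨a, b, hva, hvb, hab, rfl⟩ := c4_exists hcl ht hvt
  obtain ⟨c, hcv, hca, hcb, hc⟩ := c4_third hcl hva ht
  have ht' : ({v, b, a} : Finset (Fin n)) ∈ C := by
    rwa [show ({v, b, a} : Finset (Fin n)) = {v, a, b} by rw [pair_comm b a]]
  obtain ⟨d, hdv, hdb, hda, hd⟩ := c4_third hcl hvb ht'
  have hvV : v ∈ C.biUnion id := mem_biUnion.2 ⟨_, ht, by simp⟩
  have haV : a ∈ C.biUnion id := mem_biUnion.2 ⟨_, ht, by simp⟩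
  -- the three members at `v`
  have n1 : ({v, a, b} : Finset (Fin n)) ≠ {v, a, c} := by
    intro h
    have : b ∈ ({v, a, c} : Finset (Fin n)) := h ▸ (by simp)
    simp only [mem_insert, mem_singleton] at this
    rcases this with h | h | h
    · exact hvb h.symm
    · exact hab h.symm
    · exact hcb h.symm
  have n2 : ({v, a, b} : Finset (Fin n)) ≠ {v, b, d} := by
    intro h
    have : a ∈ ({v, b, d} : Finset (Fin n)) := h ▸ (by simp)
    simp only [mem_insert, mem_singleton] at this
    rcases this with h | h | h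
    · exact hva h.symm
    · exact hab h
    · exact hda h.symm
  have n3 : ({v, a, c} : Finset (Fin n)) ≠ {v, b, d} := by
    intro h
    have : a ∈ ({v, b, d} : Finset (Fin n)) := h ▸ (by simp)
    simp only [mem_insert, mem_singleton] at this
    rcases this with h | h | h
    · exact hva h.symm
    · exact hab h
    · exact hda h.symm
  have hc' : ({v, c, a} : Finset (Fin n)) ∈ C := by
    rwa [show ({v, c, a} : Finset (Fin n)) = {v, a, c} by rw [pair_comm c a]]
  obtain ⟨e, hev, hec, hea, he⟩ := c4_third hcl hcv.symm hc'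
  have hcd : c = d := by
    have hmem : ({v, c, e} : Finset (Fin n)) ∈ c4_st C v := mem_filter.2 ⟨he, by simp⟩
    rcases c4_mem_three (hdeg v hvV) (mem_filter.2 ⟨ht, by simp⟩) (mem_filter.2 ⟨hc, by simp⟩)
      (mem_filter.2 ⟨hd, by simp⟩) n1 n2 n3 hmem with h | h | h
    · exfalso
      have : c ∈ ({v, a, b} : Finset (Fin n)) := h ▸ (by simp)
      simp only [mem_insert, mem_singleton] at this
      tauto
    · exfalso
      have : e ∈ ({v, a, c} : Finset (Fin n)) := h ▸ (by simp)
      simp only [mem_insert, mem_singleton] at this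
      tauto
    · have : c ∈ ({v, b, d} : Finset (Fin n)) := h ▸ (by simp)
      simp only [mem_insert, mem_singleton] at this
      tauto
  subst hcd
  -- the members at `a`
  have hab' : ({a, b, v} : Finset (Fin n)) ∈ C := by
    rwa [show ({a, b, v} : Finset (Fin n)) = {v, a, b} by
      ext x
      simp only [mem_insert, mem_singleton]
      tauto]
  have hac' : ({a, c, v} : Finset (Fin n)) ∈ C := by
    rwa [show ({a, c, v} : Finset (Fin n)) = {v, a, c} by
      ext x
      simp only [mem_insert, mem_singleton]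
      tauto]
  obtain ⟨m, hma, hmb, hmv, hm⟩ := c4_third hcl hab hab'
  obtain ⟨m', hma', hmc', hmv', hm'⟩ := c4_third hcl (Ne.symm hca) hac'
  have habc : ({a, b, c} : Finset (Fin n)) ∈ C := by
    have k1 : ({v, a, b} : Finset (Fin n)) ≠ {a, b, m} := by
      intro h
      have : v ∈ ({a, b, m} : Finset (Fin n)) := h ▸ (by simp)
      simp only [mem_insert, mem_singleton] at this
      tauto
    have k2 : ({v, a, c} : Finset (Fin n)) ≠ {a, b, m} := by
      intro h
      have : v ∈ ({a, b, m} : Finset (Fin n)) := h ▸ (by simp)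
      simp only [mem_insert, mem_singleton] at this
      tauto
    have hmem : ({a, c, m'} : Finset (Fin n)) ∈ c4_st C a := mem_filter.2 ⟨hm', by simp⟩
    rcases c4_mem_three (hdeg a haV) (mem_filter.2 ⟨ht, by simp⟩) (mem_filter.2 ⟨hc, by simp⟩)
      (mem_filter.2 ⟨hm, by simp⟩) n1 k1 k2 hmem with h | h | h
    · exfalso
      have : c ∈ ({v, a, b} : Finset (Fin n)) := h ▸ (by simp)
      simp only [mem_insert, mem_singleton] at this
      tauto
    · exfalso
      have : m' ∈ ({v, a, c} : Finset (Fin n)) := h ▸ (by simp)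
      simp only [mem_insert, mem_singleton] at this
      tauto
    · have : c ∈ ({a, b, m} : Finset (Fin n)) := h ▸ (by simp)
      simp only [mem_insert, mem_singleton] at this
      have hcm : c = m := by tauto
      rwa [hcm]
  -- the boundary of the tetrahedron
  set Q : Finset (Fin n) := {v, a, b, c} with hQ
  have hQc : Q.card = 4 := by
    rw [hQ, card_insert_of_notMem, card_insert_of_notMem, card_pair (Ne.symm hcb)]
    · simp only [mem_insert, mem_singleton, not_or]
      exact ⟨hab, Ne.symm hca⟩
    · simp only [mem_insert, mem_singleton, not_or]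
      exact ⟨hva, hvb, Ne.symm hcv⟩
  have hsub : Q.powersetCard 3 ⊆ C := by
    intro u hu
    obtain ⟨huQ, hu3⟩ := mem_powersetCard.1 hu
    have h1 : (Q \ u).card = 1 := by
      rw [card_sdiff_of_subset huQ, hQc, hu3]
    obtain ⟨z, hz⟩ := card_eq_one.1 h1
    have hzQ : z ∈ Q \ u := by
      rw [hz]
      exact mem_singleton_self z
    have hue : u = Q.erase z := by
      ext x
      rw [mem_erase]
      constructor
      · intro hx
        refine ⟨?_, huQ hx⟩
        rintro rfl
        exact (mem_sdiff.1 hzQ).2 hx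
      · rintro ⟨hxz, hxQ⟩
        by_contra hxu
        have : x ∈ Q \ u := mem_sdiff.2 ⟨hxQ, hxu⟩
        rw [hz, mem_singleton] at this
        exact hxz this
    have hz' := (mem_sdiff.1 hzQ).1
    rw [hQ] at hz'
    simp only [mem_insert, mem_singleton] at hz'
    rw [hue]
    rcases hz' with rfl | rfl | rfl | rfl
    · have : Q.erase z = {a, b, c} := by
        ext x
        simp only [hQ, mem_erase, mem_insert, mem_singleton]
        constructor
        · tauto
        · rintro (rfl | rfl | rfl)
          · exact ⟨Ne.symm hva, by tauto⟩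
          · exact ⟨Ne.symm hvb, by tauto⟩
          · exact ⟨hcv, by tauto⟩
      rw [this]
      exact habc
    · have : Q.erase z = {v, b, c} := by
        ext x
        simp only [hQ, mem_erase, mem_insert, mem_singleton]
        constructor
        · tauto
        · rintro (rfl | rfl | rfl)
          · exact ⟨hva, by tauto⟩
          · exact ⟨Ne.symm hab, by tauto⟩
          · exact ⟨hca, by tauto⟩
      rw [this]
      exact hd
    · have : Q.erase z = {v, a, c} := by
        ext x
        simp only [hQ, mem_erase, mem_insert, mem_singleton]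
        constructor
        · tauto
        · rintro (rfl | rfl | rfl)
          · exact ⟨hvb, by tauto⟩
          · exact ⟨hab, by tauto⟩
          · exact ⟨hcb, by tauto⟩
      rw [this]
      exact hc
    · have : Q.erase z = {v, a, b} := by
        ext x
        simp only [hQ, mem_erase, mem_insert, mem_singleton]
        constructor
        · tauto
        · rintro (rfl | rfl | rfl)
          · exact ⟨Ne.symm hcv, by tauto⟩
          · exact ⟨Ne.symm hca, by tauto⟩
          · exact ⟨Ne.symm hcb, by tauto⟩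
      rw [this]
      exact ht
  have hclQ : Cl (Q.powersetCard 3) := by
    refine ⟨?_, ?_, ?_⟩
    · rw [← card_pos, card_powersetCard, hQc]
      norm_num [Nat.choose]
    · intro u hu
      exact (mem_powersetCard.1 hu).2
    · intro u hu f hfu hf
      obtain ⟨huQ, hu3⟩ := mem_powersetCard.1 hu
      have h1 : (Q \ u).card = 1 := by
        rw [card_sdiff_of_subset huQ, hQc, hu3]
      obtain ⟨z, hz⟩ := card_eq_one.1 h1
      have hzQ : z ∈ Q \ u := by
        rw [hz]
        exact mem_singleton_self z
      have hzf : z ∉ f := fun h => (mem_sdiff.1 hzQ).2 (hfu h)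
      refine ⟨insert z f, ?_, ?_, subset_insert z f⟩
      · rw [mem_powersetCard]
        refine ⟨?_, ?_⟩
        · intro x hx
          rcases mem_insert.1 hx with rfl | h
          · exact (mem_sdiff.1 hzQ).1
          · exact huQ (hfu h)
        · rw [card_insert_of_notMem hzf, hf]
      · intro h
        exact (mem_sdiff.1 hzQ).2 (h ▸ mem_insert_self z f)
  have hCQ := hmin _ hsub hclQ
  rw [← hCQ, card_powersetCard, hQc] at h5
  norm_num [Nat.choose] at h5

end Pool.Agent.HT
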