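import Pool.Agent.Lib_helper59.HT.Defs2
import Pool.Agent.Lib_helper59.HT.A_expl_count
import Pool.Agent.Lib_helper59.HT.A_min_closed_vertices

/-!
# Block C6: the weighted number of minimal closed families
-/

set_option autoImplicit false

open Finset Matrix

namespace Pool.Agent.HT

/-- number of minimal closed families with `m` members -/
noncomputable def c6_num (n m : ℕ) : ℕ :=
  cnt (fun C : Finset (Finset (Fin n)) => MinCl C ∧ C.card = m)

theorem c6_cnt_eq_natCard {α : Type*} [Fintype α] (A : α → Prop) :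
    cnt A = Nat.card {x // A x} := by
  classical
  rw [Nat.card_eq_fintype_card, Fintype.card_subtype, cnt]

theorem c6_cnt_mono {α : Type*} [Fintype α] {A B : α → Prop} (h : ∀ x, A x → B x) :
    cnt A ≤ cnt B := by
  classical
  exact card_le_card fun x hx => by
    simp only [mem_filter, mem_univ, true_and] at hx ⊢
    exact h x hx

/-! ### few members -/

theorem c6_small (n m : ℕ) (hm : 5 ≤ m) (hn : 0 < n) :
    c6_num n m ≤ n ^ (m - 1) * 2 ^ 2 ^ (m - 1) := by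
  classical
  let F : (Fin (m - 1) → Fin n) × Finset (Finset (Fin (m - 1))) → Finset (Finset (Fin n)) :=
    fun z => z.2.image fun t => t.image z.1
  have h1 : (univ.filter fun C : Finset (Finset (Fin n)) => MinCl C ∧ C.card = m) ⊆
      univ.image F := by
    intro C hC
    simp only [mem_filter, mem_univ, true_and] at hC
    obtain ⟨hC, hcard⟩ := hC
    have hV : (C.biUnion id).card + 1 ≤ C.card := min_closed_vertices n C hC (by omega)
    have hV' : (C.biUnion id).card ≤ m - 1 := by omega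
    let e := (C.biUnion id).equivFin
    let g : Fin (m - 1) → Fin n := fun i =>
      if h : i.val < (C.biUnion id).card then (e.symm ⟨i.val, h⟩).1 else ⟨0, hn⟩
    have hg : ∀ x ∈ C.biUnion id, ∃ i, g i = x := by
      intro x hx
      refine ⟨⟨(e ⟨x, hx⟩).val, lt_of_lt_of_le (e ⟨x, hx⟩).2 hV'⟩, ?_⟩
      simp only [g]
      rw [dif_pos (e ⟨x, hx⟩).2]
      simp
    rw [mem_image]
    refine ⟨(g, C.image fun t => univ.filter fun i => g i ∈ t), mem_univ _, ?_⟩
    simp only [F, image_image]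
    have : ∀ t ∈ C, (Function.comp (fun t => t.image g)
        (fun t : Finset (Fin n) => univ.filter fun i => g i ∈ t)) t = t := by
      intro t ht
      ext x
      simp only [Function.comp, mem_image, mem_filter, mem_univ, true_and]
      constructor
      · rintro ⟨i, hi, rfl⟩
        exact hi
      · intro hx
        obtain ⟨i, hi⟩ := hg x (mem_biUnion.2 ⟨t, ht, hx⟩)
        exact ⟨i, by rwa [hi], hi⟩
    rw [image_congr (g := id) (fun t ht => by simpa using this t ht)]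
    exact image_id
  have h2 := (card_le_card h1).trans card_image_le
  rw [card_univ, Fintype.card_prod, Fintype.card_fun, Fintype.card_fin, Fintype.card_fin,
    Fintype.card_finset, Fintype.card_finset, Fintype.card_fin] at h2
  refine le_trans (le_of_eq ?_) h2
  rw [c6_num, cnt]
  congr

/-! ### degrees -/

theorem c6_deg_le {n : ℕ} (C : Finset (Finset (Fin n))) (w : Fin n) :
    cnt (fun x => sk C w x) ≤ (C.biUnion id).card := by
  classical
  refine card_le_card fun x hx => ?_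
  simp only [mem_filter, mem_univ, true_and] at hx
  obtain ⟨_, t, ht, _, hx⟩ := hx
  exact mem_biUnion.2 ⟨t, ht, hx⟩

theorem c6_deg_sum {n : ℕ} (C : Finset (Finset (Fin n))) (hC : ∀ t ∈ C, t.card = 3) :
    ∑ w, cnt (fun x => sk C w x) ≤ 6 * C.card := by
  classical
  have h1 : ∀ w, cnt (fun x => sk C w x) ≤ ∑ t ∈ C, if w ∈ t then 2 else 0 := by
    intro w
    have : (univ.filter fun x => sk C w x) ⊆ (C.filter fun t => w ∈ t).biUnion fun t => t.erase w := by
      intro x hx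
      simp only [mem_filter, mem_univ, true_and] at hx
      obtain ⟨hne, t, ht, hw, hx⟩ := hx
      exact mem_biUnion.2 ⟨t, mem_filter.2 ⟨ht, hw⟩, mem_erase.2 ⟨hne.symm, hx⟩⟩
    have h2 := (card_le_card this).trans card_biUnion_le
    have h3 : cnt (fun x => sk C w x) = (univ.filter fun x => sk C w x).card := by
      rw [cnt]
    rw [h3]
    refine h2.trans (le_of_eq ?_)
    rw [sum_filter]
    refine sum_congr rfl fun t ht => ?_
    by_cases hw : w ∈ t
    · rw [if_pos hw, if_pos hw, card_erase_of_mem hw, hC t ht]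
    · rw [if_neg hw, if_neg hw]
  refine (sum_le_sum fun w _ => h1 w).trans ?_
  rw [sum_comm]
  have : ∀ t ∈ C, ∑ w, (if w ∈ t then 2 else 0) = 6 := by
    intro t ht
    rw [← sum_filter, sum_const]
    have : (univ.filter fun w => w ∈ t) = t := by
      ext x
      simp
    rw [this, hC t ht]
    rfl
  rw [sum_congr rfl this, sum_const, smul_eq_mul, mul_comm]

/-! ### sets of bounded size -/

theorem c6_sets (n h : ℕ) :
    (univ.filter fun H : Finset (Fin n) => H.card ≤ h).card ≤ (n + 1) ^ h := by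
  classical
  let F : (Fin h → Option (Fin n)) → Finset (Fin n) := fun f =>
    univ.filter fun x => ∃ i, f i = some x
  have h1 : (univ.filter fun H : Finset (Fin n) => H.card ≤ h) ⊆ univ.image F := by
    intro H hH
    simp only [mem_filter, mem_univ, true_and] at hH
    let e := H.equivFin
    rw [mem_image]
    refine ⟨fun i => if hi : i.val < H.card then some (e.symm ⟨i.val, hi⟩).1 else none,
      mem_univ _, ?_⟩
    ext x
    simp only [F, mem_filter, mem_univ, true_and]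
    constructor
    · rintro ⟨i, hi⟩
      split_ifs at hi with h'
      rw [Option.some_inj] at hi
      rw [← hi]
      exact (e.symm ⟨i.val, h'⟩).2
    · intro hx
      refine ⟨⟨(e ⟨x, hx⟩).val, lt_of_lt_of_le (e ⟨x, hx⟩).2 hH⟩, ?_⟩
      rw [dif_pos (e ⟨x, hx⟩).2]
      simp
  have h2 := (card_le_card h1).trans card_image_le
  rwa [card_univ, Fintype.card_fun, Fintype.card_option, Fintype.card_fin, Fintype.card_fin] at h2

/-! ### applications of the exploration bound -/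

theorem c6_num_B (n m : ℕ) (hm : 5 ≤ m) (hmn : 2 * m ≤ n) :
    c6_num n m ≤ n ^ 3 * 2 ^ m * n ^ (m - 1 - (m - 1) / 4) * (2 * m) ^ ((m - 1) / 4) := by
  have h := expl_count n m ((m - 1) / 4) m ∅ (by simpa using hmn) (by
    simp
    omega)
  rw [card_empty, zero_add] at h
  refine le_trans ?_ h
  rw [c6_num, ← c6_cnt_eq_natCard]
  refine c6_cnt_mono ?_
  rintro C ⟨hC, hcard⟩
  refine ⟨hC, hcard, fun w _ => ?_⟩
  have := min_closed_vertices n C hC (by omega)
  exact (c6_deg_le C w).trans (by omega)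

theorem c6_num_C (n m s D h : ℕ) (hh' : 6 * m < (h + 1) * (D + 1))
    (hS : h + 2 * D ≤ n) (hs : 4 * s + h.choose 2 + 1 ≤ m) :
    c6_num n m ≤ (n + 1) ^ h * (n ^ 3 * 2 ^ m * n ^ (m - 1 - s) * (h + 2 * D) ^ s) := by
  classical
  let B : Finset (Fin n) → Finset (Finset (Finset (Fin n))) := fun H =>
    univ.filter fun C => MinCl C ∧ C.card = m ∧ ∀ w, w ∉ H → cnt (fun x => sk C w x) ≤ D
  have h1 : (univ.filter fun C : Finset (Finset (Fin n)) => MinCl C ∧ C.card = m) ⊆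
      (univ.filter fun H : Finset (Fin n) => H.card ≤ h).biUnion B := by
    intro C hC
    simp only [mem_filter, mem_univ, true_and] at hC
    obtain ⟨hC, hcard⟩ := hC
    rw [mem_biUnion]
    refine ⟨univ.filter fun w => D < cnt (fun x => sk C w x), ?_, ?_⟩
    · simp only [mem_filter, mem_univ, true_and]
      by_contra hlt
      push Not at hlt
      have h2 := c6_deg_sum C hC.1.2.1
      have h3 : (univ.filter fun w => D < cnt (fun x => sk C w x)).card • (D + 1) ≤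
          ∑ w ∈ (univ.filter fun w => D < cnt (fun x => sk C w x)), cnt (fun x => sk C w x) :=
        card_nsmul_le_sum _ _ _ fun w hw => by
          simp only [mem_filter, mem_univ, true_and] at hw
          omega
      have h4 : ∑ w ∈ (univ.filter fun w => D < cnt (fun x => sk C w x)), cnt (fun x => sk C w x) ≤
          ∑ w, cnt (fun x => sk C w x) := sum_le_sum_of_subset (filter_subset _ _)
      rw [smul_eq_mul] at h3
      have h5 : (h + 1) * (D + 1) ≤
          (univ.filter fun w => D < cnt (fun x => sk C w x)).card * (D + 1) :=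
        Nat.mul_le_mul_right _ hlt
      rw [hcard] at h2
      omega
    · simp only [B, mem_filter, mem_univ, true_and]
      refine ⟨hC, hcard, fun w hw => ?_⟩
      simpa using hw
  have h2 : ∀ H ∈ (univ.filter fun H : Finset (Fin n) => H.card ≤ h), (B H).card ≤
      n ^ 3 * 2 ^ m * n ^ (m - 1 - s) * (h + 2 * D) ^ s := by
    intro H hH
    simp only [mem_filter, mem_univ, true_and] at hH
    have h3 := expl_count n m s D H (by omega) (by
      have := Nat.choose_le_choose 2 hH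
      omega)
    rw [← c6_cnt_eq_natCard] at h3
    have h4 : (B H).card = cnt (fun C : Finset (Finset (Fin n)) =>
        MinCl C ∧ C.card = m ∧ ∀ w, w ∉ H → cnt (fun x => sk C w x) ≤ D) := by
      rw [cnt]
      simp only [B]
      congr
    rw [h4]
    refine h3.trans ?_
    gcongr
  have h3 := (card_le_card h1).trans card_biUnion_le
  have h4 := h3.trans (sum_le_card_nsmul _ _ _ h2)
  rw [smul_eq_mul] at h4
  have h5 : c6_num n m =
      (univ.filter fun C : Finset (Finset (Fin n)) => MinCl C ∧ C.card = m).card := by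
    rw [c6_num, cnt]
    congr
  rw [h5]
  exact h4.trans (Nat.mul_le_mul_right _ (c6_sets n h))

/-! ### estimates -/

theorem c6_alg (n m s : ℕ) (hn : 0 < n) (hs : s + 1 ≤ m) (κ S : ℝ) :
    (n : ℝ) ^ 3 * 2 ^ m * (n : ℝ) ^ (m - 1 - s) * S ^ s * (κ / n) ^ m =
      (n : ℝ) ^ 2 * (2 * κ) ^ m * (S / n) ^ s := by
  have hn' : (n : ℝ) ≠ 0 := by positivity
  have h1 : (n : ℝ) ^ m = n * (n : ℝ) ^ (m - 1 - s) * (n : ℝ) ^ s := by
    rw [← pow_succ', ← pow_add]
    congr 1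
    omega
  rw [div_pow, div_pow, mul_pow, h1]
  field_simp

theorem c6_cube (m : ℕ) : (m : ℝ) ^ 3 ≤ 8 ^ m := by
  have h1 : (m : ℝ) ≤ 2 ^ m := by exact_mod_cast Nat.lt_two_pow_self.le
  calc (m : ℝ) ^ 3 ≤ (2 ^ m) ^ 3 := by gcongr
    _ = 8 ^ m := by
      rw [← pow_mul, mul_comm, pow_mul]
      norm_num

theorem c6_log (c : ℝ) (hc : 0 < c) : ∃ N : ℕ, ∀ n : ℕ, N ≤ n →
    n + 1 ≤ 2 ^ ((⌊c * n⌋₊ + 1) / 6) := by
  obtain ⟨i₀, hi₀⟩ := exists_nat_ge (12 / c)
  obtain ⟨N, hN⟩ := exists_nat_ge ((12 * (i₀ + 1) + 6) / c)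
  refine ⟨N, fun n hn => ?_⟩
  set j := (⌊c * n⌋₊ + 1) / 6 with hj
  have h1 : ⌊c * n⌋₊ + 1 ≤ 6 * j + 5 := by omega
  have h2 : c * n < 6 * j + 6 := by
    have h3 := Nat.lt_floor_add_one (c * n)
    have h4 : ((⌊c * n⌋₊ + 1 : ℕ) : ℝ) ≤ ((6 * j + 5 : ℕ) : ℝ) := by exact_mod_cast h1
    push_cast at h4
    linarith
  have h3 : 12 * ((i₀ : ℝ) + 1) + 6 ≤ c * n := by
    have h4 : (12 * ((i₀ : ℝ) + 1) + 6) / c ≤ n := hN.trans (by exact_mod_cast hn)
    rw [div_le_iff₀ hc] at h4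
    linarith
  have h4 : 2 * i₀ + 2 ≤ j := by
    have : (2 * (i₀ : ℝ) + 1) < j := by linarith
    have : ((2 * i₀ + 1 : ℕ) : ℝ) < (j : ℝ) := by
      push_cast
      exact this
    have : 2 * i₀ + 1 < j := by exact_mod_cast this
    omega
  set i := j / 2 with hi
  have h5 : i₀ ≤ i := by omega
  have h6 : j ≤ 2 * i + 1 := by omega
  have h7 : 2 * i ≤ j := by omega
  have h8 : (i + 1) ^ 2 ≤ 2 ^ j := by
    calc (i + 1) ^ 2 ≤ (2 ^ i) ^ 2 := Nat.pow_le_pow_left Nat.lt_two_pow_self 2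
      _ = 2 ^ (2 * i) := by rw [← pow_mul, mul_comm]
      _ ≤ 2 ^ j := Nat.pow_le_pow_right (by norm_num) h7
  refine le_trans ?_ h8
  have h9 : 12 / c ≤ i := hi₀.trans (by exact_mod_cast h5)
  have h10 : (n : ℝ) < 12 / c * (i + 1) := by
    have h11 : (j : ℝ) ≤ 2 * i + 1 := by exact_mod_cast h6
    have h12 : c * n < 12 * (i + 1) := by linarith
    have h13 : (n : ℝ) < 12 * (i + 1) / c := by
      rw [lt_div_iff₀ hc]
      linarith
    calc (n : ℝ) < 12 * (i + 1) / c := h13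
      _ = 12 / c * (i + 1) := by ring
  have h14 : (n : ℝ) + 1 ≤ ((i : ℝ) + 1) ^ 2 := by
    have : 12 / c * ((i : ℝ) + 1) ≤ i * (i + 1) := by gcongr
    nlinarith [(Nat.cast_nonneg i : (0 : ℝ) ≤ i)]
  exact_mod_cast h14

/-- the main estimate -/
theorem c6_main (κ : ℝ) (hκ : 0 < κ) : ∃ δ K : ℝ, 0 < δ ∧ 0 < K ∧ ∃ N : ℕ, ∀ n : ℕ, N ≤ n →
    ∀ m : ℕ, 5 ≤ m → (m : ℝ) ≤ δ * (n : ℝ) ^ 2 →
      (c6_num n m : ℝ) * (κ / n) ^ m ≤ K / n * (1 / 2) ^ m := by
  obtain ⟨ρ, hρ0, hρ1, hρκ⟩ : ∃ ρ : ℝ, 0 < ρ ∧ ρ ≤ 1 ∧ 64 * κ * ρ ≤ 1 := by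
    refine ⟨min 1 (1 / (64 * κ)), lt_min one_pos (by positivity), min_le_left _ _, ?_⟩
    calc 64 * κ * min 1 (1 / (64 * κ)) ≤ 64 * κ * (1 / (64 * κ)) := by
          gcongr
          exact min_le_right _ _
      _ = 1 := by field_simp
  set δ1 : ℝ := ρ ^ 4 / 2 with hδ1
  set δ' : ℝ := ρ ^ 5 / 4 with hδ'
  set δ : ℝ := ρ ^ 10 / 5760 with hδ
  have hδ1p : 0 < δ1 := by positivity
  have hδ'p : 0 < δ' := by positivity
  obtain ⟨N, hN⟩ := c6_log δ' hδ'p
  set KA : ℝ := ∑ j ∈ range 14, 2 ^ 2 ^ (j - 1) * (2 * κ) ^ j with hKA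
  have hKAp : 0 ≤ KA := sum_nonneg fun j _ => by positivity
  refine ⟨δ, KA + 8 / ρ ^ 16 + 1 / (ρ ^ 4 * δ1 ^ 3), by positivity, by positivity, N + 1,
    fun n hn m hm hmn => ?_⟩
  have hnp : 0 < n := by omega
  have hnR : (0 : ℝ) < n := by exact_mod_cast hnp
  have hhalf : ∀ a : ℝ, 0 ≤ a → a ≤ KA + 8 / ρ ^ 16 + 1 / (ρ ^ 4 * δ1 ^ 3) →
      a / n * (1 / 2) ^ m ≤ (KA + 8 / ρ ^ 16 + 1 / (ρ ^ 4 * δ1 ^ 3)) / n * (1 / 2) ^ m := by
    intro a _ ha2
    gcongr
  have hpB : 0 ≤ 8 / ρ ^ 16 := by positivity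
  have hpC : 0 ≤ 1 / (ρ ^ 4 * δ1 ^ 3) := by positivity
  by_cases hm13 : m ≤ 13
  · -- few members
    refine le_trans ?_ (hhalf KA hKAp (by linarith))
    have h1 : (c6_num n m : ℝ) ≤ (n : ℝ) ^ (m - 1) * 2 ^ 2 ^ (m - 1) := by
      exact_mod_cast c6_small n m hm hnp
    have h2 : (n : ℝ) ^ (m - 1) * 2 ^ 2 ^ (m - 1) * (κ / n) ^ m =
        (2 ^ 2 ^ (m - 1) * (2 * κ) ^ m) / n * (1 / 2) ^ m := by
      have h3 : (n : ℝ) ^ m = n ^ (m - 1) * n := by
        rw [← pow_succ]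
        congr 1
        omega
      rw [div_pow, mul_pow, div_pow, one_pow, h3]
      field_simp
    calc (c6_num n m : ℝ) * (κ / n) ^ m ≤
        (n : ℝ) ^ (m - 1) * 2 ^ 2 ^ (m - 1) * (κ / n) ^ m := by gcongr
      _ = (2 ^ 2 ^ (m - 1) * (2 * κ) ^ m) / n * (1 / 2) ^ m := h2
      _ ≤ KA / n * (1 / 2) ^ m := by
        gcongr
        exact single_le_sum (f := fun j => (2 : ℝ) ^ 2 ^ (j - 1) * (2 * κ) ^ j)
          (fun j _ => by positivity) (mem_range.2 (by omega))
  · push Not at hm13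
    have hmR : (0 : ℝ) < m := by
      have : 0 < m := by omega
      exact_mod_cast this
    by_cases hmB : (m : ℝ) ≤ δ1 * n
    · -- moderately many members
      refine le_trans ?_ (hhalf (8 / ρ ^ 16) hpB (by linarith))
      set s := (m - 1) / 4 with hs
      have hs3 : 3 ≤ s := by omega
      have hs4 : m ≤ 4 * s + 4 := by omega
      have hy1 : 2 * (m : ℝ) / n ≤ ρ ^ 4 := by
        rw [div_le_iff₀ hnR]
        rw [hδ1] at hmB
        linarith
      have hρ4 : ρ ^ 4 ≤ 1 := pow_le_one₀ hρ0.le hρ1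
      have h2mn : 2 * m ≤ n := by
        have : 2 * (m : ℝ) ≤ n := by
          rw [div_le_iff₀ hnR] at hy1
          nlinarith
        exact_mod_cast this
      have h1 : (c6_num n m : ℝ) ≤ (n : ℝ) ^ 3 * 2 ^ m * (n : ℝ) ^ (m - 1 - s) * (2 * m) ^ s := by
        exact_mod_cast c6_num_B n m hm h2mn
      have h2 : (2 * (m : ℝ) / n) ^ s ≤ (2 * m / n) ^ 3 * (ρ ^ m / ρ ^ 16) := by
        have h3 : (2 * (m : ℝ) / n) ^ s = (2 * m / n) ^ 3 * (2 * m / n) ^ (s - 3) := by
          rw [← pow_add]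
          congr 1
          omega
        rw [h3]
        have h4 : (2 * (m : ℝ) / n) ^ (s - 3) ≤ ρ ^ m / ρ ^ 16 := by
          rw [le_div_iff₀ (by positivity)]
          calc (2 * (m : ℝ) / n) ^ (s - 3) * ρ ^ 16 ≤ (ρ ^ 4) ^ (s - 3) * ρ ^ 16 := by gcongr
            _ = ρ ^ (4 * s + 4) := by
              rw [← pow_mul, ← pow_add]
              congr 1
              omega
            _ ≤ ρ ^ m := pow_le_pow_of_le_one hρ0.le hρ1 hs4
        gcongr
      calc (c6_num n m : ℝ) * (κ / n) ^ m ≤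
          (n : ℝ) ^ 3 * 2 ^ m * (n : ℝ) ^ (m - 1 - s) * (2 * m) ^ s * (κ / n) ^ m := by gcongr
        _ = (n : ℝ) ^ 2 * (2 * κ) ^ m * (2 * m / n) ^ s := c6_alg n m s hnp (by omega) κ _
        _ ≤ (n : ℝ) ^ 2 * (2 * κ) ^ m * ((2 * m / n) ^ 3 * (ρ ^ m / ρ ^ 16)) := by gcongr
        _ = 8 / ρ ^ 16 / n * ((m : ℝ) ^ 3 * (2 * κ * ρ) ^ m) := by
          rw [mul_pow (2 * κ) ρ m]
          field_simp
          ring
        _ ≤ 8 / ρ ^ 16 / n * (8 ^ m * (2 * κ * ρ) ^ m) := by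
          have := c6_cube m
          gcongr
        _ = 8 / ρ ^ 16 / n * (16 * κ * ρ) ^ m := by
          rw [← mul_pow]
          ring_nf
        _ ≤ 8 / ρ ^ 16 / n * (1 / 2) ^ m := by
          gcongr
          linarith
    · -- many members
      push Not at hmB
      refine le_trans ?_ (hhalf (1 / (ρ ^ 4 * δ1 ^ 3)) hpC (by linarith))
      set D := ⌊δ' * n⌋₊ with hD
      set s := m / 5 with hs
      set h := 6 * m / (D + 1) with hh
      have hDle : (D : ℝ) ≤ δ' * n := Nat.floor_le (by positivity)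
      have hDlt : δ' * n < D + 1 := Nat.lt_floor_add_one _
      have hh1 : h * (D + 1) ≤ 6 * m := Nat.div_mul_le_self _ _
      have hh2 : 6 * m < (h + 1) * (D + 1) := by
        have := Nat.lt_mul_div_succ (6 * m) (Nat.succ_pos D)
        calc 6 * m < (D + 1) * (6 * m / (D + 1) + 1) := this
          _ = (h + 1) * (D + 1) := by ring
      have hρ5 : 0 < ρ ^ 5 := by positivity
      have hh1R : (h : ℝ) * (D + 1) ≤ 6 * m := by exact_mod_cast hh1
      -- bound of `h`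
      have hhb : (h : ℝ) * (δ' * n) ≤ 6 * m :=
        le_trans (by gcongr) hh1R
      have hhn : (h : ℝ) ≤ ρ ^ 5 / 2 * n := by
        have h3 : (h : ℝ) * (δ' * n) ≤ 6 * (δ * n ^ 2) := hhb.trans (by gcongr)
        have h4 : (h : ℝ) * δ' ≤ 6 * δ * n := by
          have : ((h : ℝ) * δ') * n ≤ (6 * δ * n) * n := by nlinarith
          exact le_of_mul_le_mul_right this hnR
        have h5 : (h : ℝ) * (ρ ^ 5 / 4) ≤ 6 * (ρ ^ 10 / 5760) * n := by
          rw [hδ', hδ] at h4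
          exact h4
        have h6 : (h : ℝ) ≤ ρ ^ 5 / 240 * n := by
          have : (h : ℝ) * (ρ ^ 5 / 4) ≤ (ρ ^ 5 / 240 * n) * (ρ ^ 5 / 4) := by
            refine h5.trans (le_of_eq ?_)
            ring
          exact le_of_mul_le_mul_right this (by positivity)
        refine h6.trans ?_
        gcongr
        norm_num
      have hS : (h : ℝ) + 2 * D ≤ ρ ^ 5 * n := by
        rw [hδ'] at hDle
        linarith
      have hρ5' : ρ ^ 5 ≤ 1 := pow_le_one₀ hρ0.le hρ1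
      have hSn : h + 2 * D ≤ n := by
        have : (h : ℝ) + 2 * D ≤ n := by nlinarith
        exact_mod_cast this
      have hch : (h.choose 2 : ℝ) ≤ m / 20 := by
        have h3 : (h.choose 2 : ℝ) ≤ (h : ℝ) ^ 2 / 2 := by
          have := Nat.choose_le_pow_div (α := ℝ) 2 h
          simpa using this
        refine h3.trans ?_
        -- h^2 * δ'^2 n^2 ≤ 36 m^2 ≤ 36 m δ n^2
        have h4 : ((h : ℝ) * (δ' * n)) ^ 2 ≤ (6 * (m : ℝ)) ^ 2 := by gcongr
        have h5 : (h : ℝ) ^ 2 * δ' ^ 2 * (n : ℝ) ^ 2 ≤ 36 * m * δ * (n : ℝ) ^ 2 := by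
          calc (h : ℝ) ^ 2 * δ' ^ 2 * (n : ℝ) ^ 2 = ((h : ℝ) * (δ' * n)) ^ 2 := by ring
            _ ≤ (6 * (m : ℝ)) ^ 2 := h4
            _ = 36 * (m : ℝ) * m := by ring
            _ ≤ 36 * m * (δ * (n : ℝ) ^ 2) := by gcongr
            _ = 36 * m * δ * (n : ℝ) ^ 2 := by ring
        have h6 : (h : ℝ) ^ 2 * δ' ^ 2 ≤ 36 * m * δ :=
          le_of_mul_le_mul_right h5 (by positivity)
        rw [hδ', hδ] at h6
        have h7 : (h : ℝ) ^ 2 * (ρ ^ 10 / 16) ≤ (m / 10) * (ρ ^ 10 / 16) := by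
          calc (h : ℝ) ^ 2 * (ρ ^ 10 / 16) = (h : ℝ) ^ 2 * (ρ ^ 5 / 4) ^ 2 := by ring
            _ ≤ 36 * m * (ρ ^ 10 / 5760) := h6
            _ = (m / 10) * (ρ ^ 10 / 16) := by ring
        have h8 : (h : ℝ) ^ 2 ≤ m / 10 := le_of_mul_le_mul_right h7 (by positivity)
        linarith
      have hs4 : 4 * s + h.choose 2 + 1 ≤ m := by
        have h3 : 20 * h.choose 2 ≤ m := by
          have : (20 : ℝ) * (h.choose 2 : ℝ) ≤ m := by linarith
          exact_mod_cast this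
        omega
      have hsm : s + 1 ≤ m := by omega
      have hs5 : m ≤ 5 * s + 4 := by omega
      have h1 : (c6_num n m : ℝ) ≤ ((n : ℝ) + 1) ^ h *
          ((n : ℝ) ^ 3 * 2 ^ m * (n : ℝ) ^ (m - 1 - s) * ((h : ℝ) + 2 * D) ^ s) := by
        exact_mod_cast c6_num_C n m s D h hh2 hSn hs4
      have h2 : ((n : ℝ) + 1) ^ h ≤ 2 ^ m := by
        have h3 : (n + 1) ^ h ≤ 2 ^ m := by
          calc (n + 1) ^ h ≤ (2 ^ ((D + 1) / 6)) ^ h := Nat.pow_le_pow_left (hN n (by omega)) h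
            _ = 2 ^ ((D + 1) / 6 * h) := by rw [← pow_mul]
            _ ≤ 2 ^ m := by
              refine Nat.pow_le_pow_right (by norm_num) ?_
              have h4 : 6 * ((D + 1) / 6) ≤ D + 1 := Nat.mul_div_le _ _
              have h5 : 6 * ((D + 1) / 6) * h ≤ (D + 1) * h := Nat.mul_le_mul_right h h4
              have h6 : (D + 1) * h ≤ 6 * m := by linarith
              have h7 : 6 * ((D + 1) / 6 * h) ≤ 6 * m := by linarith
              omega
        exact_mod_cast h3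
      have h3 : (((h : ℝ) + 2 * D) / n) ^ s ≤ ρ ^ m / ρ ^ 4 := by
        rw [le_div_iff₀ (by positivity)]
        have h4 : ((h : ℝ) + 2 * D) / n ≤ ρ ^ 5 := by
          rw [div_le_iff₀ hnR]
          exact hS
        calc (((h : ℝ) + 2 * D) / n) ^ s * ρ ^ 4 ≤ (ρ ^ 5) ^ s * ρ ^ 4 := by gcongr
          _ = ρ ^ (5 * s + 4) := by rw [← pow_mul, ← pow_add]
          _ ≤ ρ ^ m := pow_le_pow_of_le_one hρ0.le hρ1 hs5
      have hn3 : (n : ℝ) ^ 3 ≤ 8 ^ m / δ1 ^ 3 := by
        rw [le_div_iff₀ (by positivity)]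
        calc (n : ℝ) ^ 3 * δ1 ^ 3 = (δ1 * n) ^ 3 := by ring
          _ ≤ (m : ℝ) ^ 3 := by gcongr
          _ ≤ 8 ^ m := c6_cube m
      calc (c6_num n m : ℝ) * (κ / n) ^ m ≤ ((n : ℝ) + 1) ^ h *
          ((n : ℝ) ^ 3 * 2 ^ m * (n : ℝ) ^ (m - 1 - s) * ((h : ℝ) + 2 * D) ^ s) * (κ / n) ^ m := by
            gcongr
        _ = ((n : ℝ) + 1) ^ h * ((n : ℝ) ^ 3 * 2 ^ m * (n : ℝ) ^ (m - 1 - s) *
            ((h : ℝ) + 2 * D) ^ s * (κ / n) ^ m) := by ring
        _ = ((n : ℝ) + 1) ^ h *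
            ((n : ℝ) ^ 2 * (2 * κ) ^ m * (((h : ℝ) + 2 * D) / n) ^ s) := by
          rw [c6_alg n m s hnp hsm κ _]
        _ ≤ 2 ^ m * ((n : ℝ) ^ 2 * (2 * κ) ^ m * (ρ ^ m / ρ ^ 4)) := by gcongr
        _ = 1 / ρ ^ 4 / n * ((n : ℝ) ^ 3 * (4 * κ * ρ) ^ m) := by
          have : (4 * κ * ρ) ^ m = 2 ^ m * (2 * κ) ^ m * ρ ^ m := by
            rw [← mul_pow, ← mul_pow]
            ring_nf
          rw [this]
          field_simp
        _ ≤ 1 / ρ ^ 4 / n * (8 ^ m / δ1 ^ 3 * (4 * κ * ρ) ^ m) := by gcongr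
        _ = 1 / (ρ ^ 4 * δ1 ^ 3) / n * (32 * κ * ρ) ^ m := by
          have : (32 * κ * ρ) ^ m = 8 ^ m * (4 * κ * ρ) ^ m := by
            rw [← mul_pow]
            ring_nf
          rw [this]
          field_simp
        _ ≤ 1 / (ρ ^ 4 * δ1 ^ 3) / n * (1 / 2) ^ m := by
          gcongr
          linarith

open Classical in
theorem closed_count_pr (κ : ℝ) (hκ : 0 < κ) : ∃ δ : ℝ, 0 < δ ∧ ∀ ε : ℝ, 0 < ε → ∃ N : ℕ,
    ∀ n : ℕ, N ≤ n →
    ∑ C ∈ (Finset.univ : Finset (Finset (Finset (Fin n)))).filter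
      (fun C => MinCl C ∧ 5 ≤ C.card ∧ (C.card : ℝ) ≤ δ * (n : ℝ) ^ 2),
      (κ / n) ^ C.card ≤ ε := by
  obtain ⟨δ, K, hδ, hK, N, hN⟩ := c6_main κ hκ
  refine ⟨δ, hδ, fun ε hε => ?_⟩
  obtain ⟨N', hN'⟩ := exists_nat_ge (2 * K / ε)
  refine ⟨max (N + 1) N', fun n hn => ?_⟩
  have hn1 : N + 1 ≤ n := (le_max_left _ _).trans hn
  have hn2 : N' ≤ n := (le_max_right _ _).trans hn
  have hnR : (0 : ℝ) < n := by
    have : 0 < n := by omega
    exact_mod_cast this
  set M := ⌊δ * (n : ℝ) ^ 2⌋₊ with hM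
  rw [← sum_fiberwise_of_maps_to (t := Icc 5 M) (g := fun C : Finset (Finset (Fin n)) => C.card)]
  · have h1 : ∀ m ∈ Icc 5 M, ∑ C ∈ ((Finset.univ : Finset (Finset (Finset (Fin n)))).filter
        (fun C => MinCl C ∧ 5 ≤ C.card ∧ (C.card : ℝ) ≤ δ * (n : ℝ) ^ 2)).filter
          (fun C => C.card = m), (κ / n) ^ C.card ≤ K / n * (1 / 2) ^ m := by
      intro m hm
      obtain ⟨hm5, hmM⟩ := mem_Icc.1 hm
      have hmR : (m : ℝ) ≤ δ * (n : ℝ) ^ 2 := by
        have h2 : (M : ℝ) ≤ δ * (n : ℝ) ^ 2 := Nat.floor_le (by positivity)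
        have h3 : (m : ℝ) ≤ M := by exact_mod_cast hmM
        linarith
      refine le_trans ?_ (hN n (by omega) m hm5 hmR)
      have h2 : ∑ C ∈ ((Finset.univ : Finset (Finset (Finset (Fin n)))).filter
          (fun C => MinCl C ∧ 5 ≤ C.card ∧ (C.card : ℝ) ≤ δ * (n : ℝ) ^ 2)).filter
          (fun C => C.card = m), (κ / n) ^ C.card =
          ∑ C ∈ ((Finset.univ : Finset (Finset (Finset (Fin n)))).filter
          (fun C => MinCl C ∧ 5 ≤ C.card ∧ (C.card : ℝ) ≤ δ * (n : ℝ) ^ 2)).filter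
          (fun C => C.card = m), (κ / n) ^ m := by
        refine sum_congr rfl fun C hC => ?_
        rw [(mem_filter.1 hC).2]
      rw [h2, sum_const, nsmul_eq_mul]
      gcongr
      rw [c6_num, cnt]
      refine card_le_card fun C hC => ?_
      simp only [mem_filter, mem_univ, true_and] at hC ⊢
      exact ⟨hC.1.1, hC.2⟩
    refine (sum_le_sum h1).trans ?_
    rw [← mul_sum]
    have h2 : ∑ m ∈ Icc 5 M, (1 / 2 : ℝ) ^ m ≤ 2 := by
      have h3 : ∑ m ∈ Icc 5 M, (1 / 2 : ℝ) ^ m ≤ ∑' m : ℕ, (1 / 2 : ℝ) ^ m :=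
        Summable.sum_le_tsum _ (fun _ _ => by positivity) summable_geometric_two
      rwa [tsum_geometric_two] at h3
    calc K / n * ∑ m ∈ Icc 5 M, (1 / 2 : ℝ) ^ m ≤ K / n * 2 := by gcongr
      _ = 2 * K / n := by ring
      _ ≤ ε := by
        rw [div_le_iff₀ hnR]
        rw [div_le_iff₀ hε] at hN'
        have : (N' : ℝ) ≤ n := by exact_mod_cast hn2
        nlinarith
  · intro C hC
    obtain ⟨_, _, h5, hle⟩ := mem_filter.1 hC
    exact mem_Icc.2 ⟨h5, Nat.le_floor hle⟩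

end Pool.Agent.HT
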